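import Mathlib

set_option autoImplicit false

/-!
# The LL-domination game number is not bounded by twice the Z-domination game number

For every `t ≥ 1` we give a connected graph on `9t+1` vertices with Z-domination game number at
most `2t+1` and LL-domination game number at least `5t-1`.
-/

namespace Pool.Agent.Results.MP_4d264a_co.UnboundedGap

/-- A two player game with positions `P`, moves `M`, legality predicate `legal` and transition
`next`.  `AtMost legal next k dom X` says: from position `X`, Dominator to move iff `dom = true`,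
Dominator can make sure that at most `k` further moves are played. The game ends when there is no
legal move. -/
def AtMost {P M : Type*} (legal : P → M → Prop) (next : P → M → P) : ℕ → Bool → P → Prop
  | 0, _, X => ∀ v, ¬ legal X v
  | k + 1, true, X => (∀ v, ¬ legal X v) ∨ ∃ v, legal X v ∧ AtMost legal next k false (next X v)
  | k + 1, false, X => ∀ v, legal X v → AtMost legal next k true (next X v)

section Games

variable {V : Type*} (G : SimpleGraph V)

/-- Z-game. The position is the union `X` of the closed neighbourhoods of the chosen vertices;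
`v` is legal iff its open neighbourhood is not contained in `X`. -/
def ZLegal (X : Set V) (v : V) : Prop := ∃ u, G.Adj v u ∧ u ∉ X

/-- In the Z-game choosing `v` adds the closed neighbourhood of `v`. -/
def ZNext (X : Set V) (v : V) : Set V := X ∪ {u | u = v ∨ G.Adj v u}

/-- LL-game. The position is the union `X` of the open neighbourhoods of the chosen vertices;
`v` is legal iff its closed neighbourhood is not contained in `X`. -/
def LLLegal (X : Set V) (v : V) : Prop := ∃ u, (u = v ∨ G.Adj v u) ∧ u ∉ X

/-- In the LL-game choosing `v` adds the open neighbourhood of `v`. -/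
def LLNext (X : Set V) (v : V) : Set V := X ∪ {u | G.Adj v u}

/-- `z` is the Z-domination game number (Dominator starts): the least `k` such that Dominator can
make sure that at most `k` moves are played. -/
def IsZNumber (z : ℕ) : Prop := IsLeast {k | AtMost (ZLegal G) (ZNext G) k true ∅} z

/-- `l` is the LL-domination game number (Dominator starts). -/
def IsLLNumber (l : ℕ) : Prop := IsLeast {k | AtMost (LLLegal G) (LLNext G) k true ∅} l

end Games

/-! ### Finiteness of the LL game -/

theorem ll_finite {V : Type*} [Finite V] (G : SimpleGraph V) (hG : ∀ u, ∃ v, G.Adj v u) :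
    ∀ (m : ℕ) (T : Set V), (Tᶜ).ncard ≤ m →
      AtMost (LLLegal G) (LLNext G) (2 * m) true T ∧
      AtMost (LLLegal G) (LLNext G) (2 * m + 1) false T := by
  intro m
  induction m with
  | zero =>
    intro T hT
    have h0 : Tᶜ = ∅ := by
      have := (Set.ncard_eq_zero (Set.toFinite (Tᶜ))).1 (Nat.le_zero.1 hT)
      exact this
    have hall : ∀ u, u ∈ T := by
      intro u
      by_contra hu
      have : u ∈ Tᶜ := hu
      rw [h0] at this
      exact this
    constructor
    · intro v hv
      obtain ⟨u, _, hu⟩ := hv
      exact hu (hall u)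
    · intro v hv
      obtain ⟨u, _, hu⟩ := hv
      exact absurd (hall u) hu
  | succ m ih =>
    intro T hT
    have h1 : AtMost (LLLegal G) (LLNext G) (2 * (m + 1)) true T := by
      by_cases hne : ∃ u, u ∉ T
      · obtain ⟨u, hu⟩ := hne
        obtain ⟨v, hv⟩ := hG u
        refine Or.inr ⟨v, ⟨u, Or.inr hv, hu⟩, ?_⟩
        refine (ih (LLNext G T v) ?_).2
        have hss : (LLNext G T v)ᶜ ⊂ Tᶜ := by
          refine ⟨fun w hw hwT => hw (Or.inl hwT), fun h => ?_⟩
          have : u ∈ (LLNext G T v)ᶜ := h hu
          exact this (Or.inr hv)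
        have := Set.ncard_lt_ncard hss (Set.toFinite _)
        omega
      · push Not at hne
        refine Or.inl ?_
        rintro v ⟨u, _, hu⟩
        exact hu (hne u)
    refine ⟨h1, ?_⟩
    have key : ∀ T' : Set V, (T'ᶜ).ncard ≤ m + 1 →
        AtMost (LLLegal G) (LLNext G) (2 * (m + 1)) true T' := by
      intro T' hT'
      by_cases hne : ∃ u, u ∉ T'
      · obtain ⟨u, hu⟩ := hne
        obtain ⟨v, hv⟩ := hG u
        refine Or.inr ⟨v, ⟨u, Or.inr hv, hu⟩, ?_⟩
        refine (ih (LLNext G T' v) ?_).2
        have hss : (LLNext G T' v)ᶜ ⊂ T'ᶜ := by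
          refine ⟨fun w hw hwT => hw (Or.inl hwT), fun h => ?_⟩
          have : u ∈ (LLNext G T' v)ᶜ := h hu
          exact this (Or.inr hv)
        have := Set.ncard_lt_ncard hss (Set.toFinite _)
        omega
      · push Not at hne
        refine Or.inl ?_
        rintro v ⟨u, _, hu⟩
        exact hu (hne u)
    intro v _
    refine key _ ?_
    have hss : (LLNext G T v)ᶜ ⊆ Tᶜ := fun w hw hwT => hw (Or.inl hwT)
    exact (Set.ncard_le_ncard hss (Set.toFinite _)).trans hT

/-! ### The graph -/

/-- Edges inside one copy: `0` is `x`, `1,2,3,4` are `t_1,…,t_4` and `5,6,7,8` are `u_1,…,u_4`. -/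
def pairs : List (Fin 9 × Fin 9) :=
  [(0, 1), (0, 2), (0, 3), (0, 4), (1, 5), (2, 6), (3, 7), (4, 8), (5, 6), (6, 7), (7, 8), (5, 8)]

/-- Adjacency inside a copy. -/
def e (a b : Fin 9) : Bool := pairs.contains (a, b) || pairs.contains (b, a)

/-- The vertices of a copy adjacent to the hub. -/
def hub (a : Fin 9) : Bool := a == 1 || a == 2 || a == 3 || a == 4

/-- Adjacency of the whole graph; `none` is the hub. -/
def adj {t : ℕ} : Option (Fin t × Fin 9) → Option (Fin t × Fin 9) → Prop
  | none, none => False
  | none, some q => hub q.2 = true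
  | some p, none => hub p.2 = true
  | some p, some q => p.1 = q.1 ∧ e p.2 q.2 = true

theorem e_symm : ∀ a b, e a b = true → e b a = true := by decide

theorem e_irrefl : ∀ a, e a a = false := by decide

/-- `t` copies of the nine vertex graph joined through the hub. -/
def graph (t : ℕ) : SimpleGraph (Option (Fin t × Fin 9)) where
  Adj := adj
  symm := by
    constructor
    rintro (_ | p) (_ | q) h
    · exact h
    · exact h
    · exact h
    · exact ⟨h.1.symm, e_symm _ _ h.2⟩
  loopless := by
    constructor
    rintro (_ | p) h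
    · exact h
    · have := h.2
      rw [e_irrefl] at this
      exact Bool.false_ne_true this

theorem connected (t : ℕ) : (graph t).Connected := by
  have hr : ∀ v, (graph t).Reachable none v := by
    have ht : ∀ (j : Fin t) (a : Fin 9), hub a = true → (graph t).Reachable none (some (j, a)) := by
      intro j a ha
      exact SimpleGraph.Adj.reachable (show adj none (some (j, a)) from ha)
    have hstep : ∀ (j : Fin t) (a b : Fin 9), hub a = true → e a b = true →
        (graph t).Reachable none (some (j, b)) := by
      intro j a b ha hab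
      exact (ht j a ha).trans
        (SimpleGraph.Adj.reachable (show adj (some (j, a)) (some (j, b)) from ⟨rfl, hab⟩))
    have hloc : ∀ b : Fin 9, hub b = true ∨ ∃ a : Fin 9, hub a = true ∧ e a b = true := by decide
    rintro (_ | ⟨j, b⟩)
    · exact SimpleGraph.Reachable.refl _
    · rcases hloc b with h | ⟨a, ha, hab⟩
      · exact ht j b h
      · exact hstep j a b ha hab
  have : Nonempty (Option (Fin t × Fin 9)) := ⟨none⟩
  exact SimpleGraph.Connected.mk (fun u v => (hr u).symm.trans (hr v))

/-! ### Upper bound for the Z game -/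

/-- All vertices except the `x` and `u` vertices of the copies in `B`. -/
def XB {t : ℕ} (B : Finset (Fin t)) : Set (Option (Fin t × Fin 9)) :=
  {v | ∀ j a, v = some (j, a) → j ∈ B → hub a = true}

/-- Dominator's answer inside a copy. -/
def resp : Fin 9 → Fin 9 := ![0, 7, 8, 5, 6, 3, 4, 1, 2]

theorem resp_covers : ∀ a b : Fin 9, (∃ c, e a c = true ∧ hub c = false) → hub b = false →
    (b = a ∨ e a b = true) ∨ (b = resp a ∨ e (resp a) b = true) := by decide

theorem resp_legal : ∀ a : Fin 9, (∃ c, e a c = true ∧ hub c = false) →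
    ∃ c, e (resp a) c = true ∧ hub c = false ∧ c ≠ a ∧ e a c = false := by decide

theorem z_false {t : ℕ} : ∀ (m : ℕ) (B : Finset (Fin t)), B.card = m →
    AtMost (ZLegal (graph t)) (ZNext (graph t)) (2 * m) false (XB B) := by
  intro m
  induction m with
  | zero =>
    intro B hB
    rintro v ⟨u, _, hu⟩
    apply hu
    intro j a _ hj
    rw [Finset.card_eq_zero] at hB
    rw [hB] at hj
    exact absurd hj (Finset.notMem_empty j)
  | succ m ih =>
    intro B hB
    rintro v ⟨u, huv, hu⟩
    -- the undominated vertex `u`
    have hu' : ∃ j a, u = some (j, a) ∧ j ∈ B ∧ hub a = false := by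
      by_contra hcon
      apply hu
      intro j a h1 h2
      by_contra h3
      exact hcon ⟨j, a, h1, h2, by simpa using h3⟩
    obtain ⟨j, c, rfl, hj, hc⟩ := hu'
    rcases v with _ | ⟨i, a⟩
    · exact absurd (show hub c = true from huv) (by simp [hc])
    · obtain ⟨hij, hac⟩ : i = j ∧ e a c = true := huv
      subst hij
      have hex : ∃ c, e a c = true ∧ hub c = false := ⟨c, hac, hc⟩
      obtain ⟨d, hd1, hd2, hd3, hd4⟩ := resp_legal a hex
      refine Or.inr ⟨some (i, resp a), ⟨some (i, d), ⟨rfl, hd1⟩, ?_⟩, ?_⟩
      · rintro (h | h | h)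
        · have := h i d rfl hj
          rw [hd2] at this
          exact Bool.false_ne_true this
        · have : d = a := by simpa using h
          exact hd3 this
        · have : e a d = true := h.2
          rw [hd4] at this
          exact Bool.false_ne_true this
      · have hset : ZNext (graph t) (ZNext (graph t) (XB B) (some (i, a))) (some (i, resp a))
            = XB (B.erase i) := by
          ext w
          constructor
          · intro hw k b hwkb hk
            subst hwkb
            have hk' := Finset.mem_erase.1 hk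
            rcases hw with (h | h | h) | h | h
            · exact h k b rfl hk'.2
            · exfalso
              have h' : k = i ∧ b = a := by simpa using h
              exact hk'.1 h'.1
            · exfalso
              exact hk'.1 h.1.symm
            · exfalso
              have h' : k = i ∧ b = resp a := by simpa using h
              exact hk'.1 h'.1
            · exfalso
              exact hk'.1 h.1.symm
          · intro hw
            by_cases hwB : w ∈ XB B
            · exact Or.inl (Or.inl hwB)
            · have hw' : ∃ k b, w = some (k, b) ∧ k ∈ B ∧ hub b = false := by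
                by_contra hcon
                apply hwB
                intro k b h1 h2
                by_contra h3
                exact hcon ⟨k, b, h1, h2, by simpa using h3⟩
              obtain ⟨k, b, rfl, hkB, hb⟩ := hw'
              have hki : k = i := by
                by_contra hne
                have := hw k b rfl (Finset.mem_erase.2 ⟨hne, hkB⟩)
                rw [hb] at this
                exact Bool.false_ne_true this
              subst hki
              rcases resp_covers a b hex hb with (h | h) | (h | h)
              · exact Or.inl (Or.inr (Or.inl (by rw [h])))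
              · exact Or.inl (Or.inr (Or.inr ⟨rfl, h⟩))
              · exact Or.inr (Or.inl (by rw [h]))
              · exact Or.inr (Or.inr ⟨rfl, h⟩)
        rw [hset]
        exact ih (B.erase i) (by rw [Finset.card_erase_of_mem hj, hB]; rfl)

theorem z_upper {t : ℕ} (ht : 1 ≤ t) :
    AtMost (ZLegal (graph t)) (ZNext (graph t)) (2 * t + 1) true ∅ := by
  refine Or.inr ⟨none, ⟨some (⟨0, ht⟩, 1), by show hub 1 = true; decide, by simp⟩, ?_⟩
  have hset : ZNext (graph t) ∅ none = XB (Finset.univ : Finset (Fin t)) := by
    ext w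
    constructor
    · intro hw k b hwkb _
      subst hwkb
      rcases hw with h | h | h
      · exact absurd h (by simp)
      · exact absurd h (by simp)
      · exact h
    · intro hw
      rcases w with _ | ⟨k, b⟩
      · exact Or.inr (Or.inl rfl)
      · exact Or.inr (Or.inr (hw k b rfl (Finset.mem_univ k)))
  rw [hset]
  exact z_false t Finset.univ (by simp)

/-! ### Lower bound for the LL game -/

/-- Weight (twice the potential) of a copy, in terms of which of `x, u_1, …, u_4` are not yet
totally dominated. -/
def wt (x a b c d : Bool) : ℕ :=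
  let k := a.toNat + b.toNat + c.toNat + d.toNat
  if x then (if k ≤ 1 then 2 else if k ≤ 3 then 4 else 5)
  else (if k = 0 then 0 else if k ≤ 2 then 2 else 3)

/-- No undominated vertex among `x, u_i` is isolated in the sense that playing it is harmless. -/
def clean (x a b c d : Bool) : Bool :=
  !x && (!a || b || d) && (!b || a || c) && (!c || b || d) && (!d || a || c)

/-- Weight of a local state. -/
def lw (s : Fin 9 → Bool) : ℕ := wt (s 0) (s 5) (s 6) (s 7) (s 8)

/-- Cleanness of a local state. -/
def lc (s : Fin 9 → Bool) : Bool := clean (s 0) (s 5) (s 6) (s 7) (s 8)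

/-- Local state after playing vertex `v` of the copy. -/
def aft (v : Fin 9) (s : Fin 9 → Bool) : Fin 9 → Bool := fun b => s b && !(e v b)

theorem wt_facts : ∀ x a b c d : Bool, ∀ v : Fin 9,
    wt x a b c d ≤ wt (x && !(e v 0)) (a && !(e v 5)) (b && !(e v 6)) (c && !(e v 7))
      (d && !(e v 8)) + 2 ∧
    (clean x a b c d = true → wt x a b c d ≤ wt (x && !(e v 0)) (a && !(e v 5)) (b && !(e v 6))
      (c && !(e v 7)) (d && !(e v 8)) + 1) := by
  decide

theorem s_clean : ∀ x a b c d : Bool, clean x a b c d = true → 0 < wt x a b c d →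
    ∃ v : Fin 9, ((x && (v == 0 || e v 0)) || (a && (v == 5 || e v 5)) || (b && (v == 6 || e v 6))
        || (c && (v == 7 || e v 7)) || (d && (v == 8 || e v 8))) = true ∧
      ((clean (x && !(e v 0)) (a && !(e v 5)) (b && !(e v 6)) (c && !(e v 7)) (d && !(e v 8)) = true
        ∧ wt x a b c d ≤ wt (x && !(e v 0)) (a && !(e v 5)) (b && !(e v 6)) (c && !(e v 7))
          (d && !(e v 8)) + 1
        ∧ 0 < wt (x && !(e v 0)) (a && !(e v 5)) (b && !(e v 6)) (c && !(e v 7)) (d && !(e v 8))) ∨
      (clean (x && !(e v 0)) (a && !(e v 5)) (b && !(e v 6)) (c && !(e v 7)) (d && !(e v 8)) = false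
        ∧ wt x a b c d ≤ wt (x && !(e v 0)) (a && !(e v 5)) (b && !(e v 6)) (c && !(e v 7))
          (d && !(e v 8)))) := by
  decide

theorem s_unclean : ∀ x a b c d : Bool, clean x a b c d = false →
    ∃ v : Fin 9, ((x && (v == 0 || e v 0)) || (a && (v == 5 || e v 5)) || (b && (v == 6 || e v 6))
        || (c && (v == 7 || e v 7)) || (d && (v == 8 || e v 8))) = true ∧
      clean (x && !(e v 0)) (a && !(e v 5)) (b && !(e v 6)) (c && !(e v 7)) (d && !(e v 8)) = false
        ∧ wt x a b c d ≤ wt (x && !(e v 0)) (a && !(e v 5)) (b && !(e v 6)) (c && !(e v 7))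
          (d && !(e v 8)) := by
  decide

section Lower

open Classical in
/-- Local state of copy `j`: the vertices not yet totally dominated. -/
noncomputable def st {t : ℕ} (T : Set (Option (Fin t × Fin 9))) (j : Fin t) : Fin 9 → Bool :=
  fun b => decide (some (j, b) ∉ T)

theorem st_eq_true {t : ℕ} (T : Set (Option (Fin t × Fin 9))) (j : Fin t) (b : Fin 9) :
    st T j b = true ↔ some (j, b) ∉ T := by
  simp [st]

theorem st_same {t : ℕ} (T : Set (Option (Fin t × Fin 9))) (j : Fin t) (a : Fin 9) :
    st (LLNext (graph t) T (some (j, a))) j = aft a (st T j) := by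
  funext b
  rw [Bool.eq_iff_iff, st_eq_true]
  unfold aft
  rw [Bool.and_eq_true, st_eq_true]
  constructor
  · intro h
    refine ⟨fun h' => h (Or.inl h'), ?_⟩
    by_contra hcon
    have he : e a b = true := by simpa using hcon
    exact h (Or.inr ⟨rfl, he⟩)
  · rintro ⟨h1, h2⟩ (h | h)
    · exact h1 h
    · have : e a b = true := h.2
      rw [this] at h2
      exact absurd h2 (by decide)

theorem st_other {t : ℕ} (T : Set (Option (Fin t × Fin 9))) (i j : Fin t) (a : Fin 9)
    (hij : i ≠ j) : st (LLNext (graph t) T (some (j, a))) i = st T i := by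
  funext b
  rw [Bool.eq_iff_iff, st_eq_true, st_eq_true]
  constructor
  · intro h h'
    exact h (Or.inl h')
  · rintro h (h' | h')
    · exact h h'
    · exact hij h'.1.symm

theorem st_hub {t : ℕ} (T : Set (Option (Fin t × Fin 9))) (i : Fin t) (b : Fin 9)
    (hb : hub b = false) : st (LLNext (graph t) T none) i b = st T i b := by
  rw [Bool.eq_iff_iff, st_eq_true, st_eq_true]
  constructor
  · intro h h'
    exact h (Or.inl h')
  · rintro h (h' | h')
    · exact h h'
    · have : hub b = true := h'
      rw [hb] at this
      exact Bool.false_ne_true this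

/-- Total weight. -/
noncomputable def W {t : ℕ} (T : Set (Option (Fin t × Fin 9))) : ℕ := ∑ j, lw (st T j)

/-- Every copy is clean. -/
def AllClean {t : ℕ} (T : Set (Option (Fin t × Fin 9))) : Prop := ∀ j, lc (st T j) = true

theorem W_hub {t : ℕ} (T : Set (Option (Fin t × Fin 9))) :
    W (LLNext (graph t) T none) = W T := by
  unfold W
  refine Finset.sum_congr rfl fun j _ => ?_
  unfold lw
  rw [st_hub T j 0 (by decide), st_hub T j 5 (by decide), st_hub T j 6 (by decide),
    st_hub T j 7 (by decide), st_hub T j 8 (by decide)]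

theorem W_split {t : ℕ} (T : Set (Option (Fin t × Fin 9))) (j : Fin t) (a : Fin 9) :
    ∃ R, W T = R + lw (st T j) ∧
      W (LLNext (graph t) T (some (j, a))) = R + lw (aft a (st T j)) := by
  refine ⟨∑ i ∈ Finset.univ.erase j, lw (st T i), ?_, ?_⟩
  · unfold W
    rw [Finset.sum_erase_add _ _ (Finset.mem_univ j)]
  · unfold W
    rw [← Finset.sum_erase_add _ _ (Finset.mem_univ j), st_same]
    congr 1
    refine Finset.sum_congr rfl fun i hi => ?_
    rw [st_other T i j a (Finset.ne_of_mem_erase hi)]

theorem W_drop {t : ℕ} (T : Set (Option (Fin t × Fin 9))) (v : Option (Fin t × Fin 9)) :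
    W T ≤ W (LLNext (graph t) T v) + 2 ∧
      (AllClean T → W T ≤ W (LLNext (graph t) T v) + 1) := by
  rcases v with _ | ⟨j, a⟩
  · rw [W_hub]
    exact ⟨by omega, fun _ => by omega⟩
  · obtain ⟨R, h1, h2⟩ := W_split T j a
    have h3 := wt_facts (st T j 0) (st T j 5) (st T j 6) (st T j 7) (st T j 8) a
    have h4 : lw (st T j) ≤ lw (aft a (st T j)) + 2 := h3.1
    refine ⟨by omega, fun hc => ?_⟩
    have h5 : lw (st T j) ≤ lw (aft a (st T j)) + 1 := h3.2 (hc j)
    omega

theorem legal_of_local {t : ℕ} (T : Set (Option (Fin t × Fin 9))) (j : Fin t) (v : Fin 9)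
    (h : ((st T j 0 && (v == 0 || e v 0)) || (st T j 5 && (v == 5 || e v 5))
      || (st T j 6 && (v == 6 || e v 6)) || (st T j 7 && (v == 7 || e v 7))
      || (st T j 8 && (v == 8 || e v 8))) = true) :
    LLLegal (graph t) T (some (j, v)) := by
  have key : ∀ b : Fin 9, (st T j b && (v == b || e v b)) = true →
      LLLegal (graph t) T (some (j, v)) := by
    intro b hb
    rw [Bool.and_eq_true, Bool.or_eq_true, st_eq_true] at hb
    obtain ⟨h1, h2 | h2⟩ := hb
    · have : v = b := by simpa using h2
      subst this
      exact ⟨some (j, v), Or.inl rfl, h1⟩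
    · exact ⟨some (j, b), Or.inr ⟨rfl, h2⟩, h1⟩
  simp only [Bool.or_eq_true] at h
  rcases h with (((h | h) | h) | h) | h
  · exact key 0 (by simpa using h)
  · exact key 5 (by simpa using h)
  · exact key 6 (by simpa using h)
  · exact key 7 (by simpa using h)
  · exact key 8 (by simpa using h)

theorem not_allClean_next {t : ℕ} (T : Set (Option (Fin t × Fin 9))) (j : Fin t) (v : Fin 9)
    (h : lc (aft v (st T j)) = false) : ¬ AllClean (LLNext (graph t) T (some (j, v))) := by
  intro hc
  have := hc j
  rw [st_same, h] at this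
  exact Bool.false_ne_true this

theorem exists_legal_of_unclean {t : ℕ} (T : Set (Option (Fin t × Fin 9))) (h : ¬ AllClean T) :
    ∃ (j : Fin t) (v : Fin 9), LLLegal (graph t) T (some (j, v)) ∧
      ¬ AllClean (LLNext (graph t) T (some (j, v))) ∧
      W T ≤ W (LLNext (graph t) T (some (j, v))) := by
  unfold AllClean at h
  push Not at h
  obtain ⟨j, hj⟩ := h
  have hj1 : lc (st T j) = false := by simpa using hj
  have hj' : clean (st T j 0) (st T j 5) (st T j 6) (st T j 7) (st T j 8) = false := hj1
  obtain ⟨v, h1, h2, h3⟩ := s_unclean _ _ _ _ _ hj'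
  obtain ⟨R, h4, h5⟩ := W_split T j v
  refine ⟨j, v, legal_of_local T j v h1, not_allClean_next T j v h2, ?_⟩
  have h6 : lw (st T j) ≤ lw (aft v (st T j)) := h3
  omega

theorem exists_legal_of_clean {t : ℕ} (T : Set (Option (Fin t × Fin 9))) (h : AllClean T)
    (hW : 0 < W T) :
    ∃ (j : Fin t) (v : Fin 9), LLLegal (graph t) T (some (j, v)) ∧
      ((AllClean (LLNext (graph t) T (some (j, v))) ∧
        W T ≤ W (LLNext (graph t) T (some (j, v))) + 1 ∧
        0 < W (LLNext (graph t) T (some (j, v)))) ∨
      (¬ AllClean (LLNext (graph t) T (some (j, v))) ∧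
        W T ≤ W (LLNext (graph t) T (some (j, v))))) := by
  have hex : ∃ j, 0 < lw (st T j) := by
    by_contra hcon
    push Not at hcon
    have : W T = 0 := Finset.sum_eq_zero fun j _ => Nat.le_zero.1 (hcon j)
    omega
  obtain ⟨j, hj⟩ := hex
  obtain ⟨v, h1, h2⟩ := s_clean _ _ _ _ _ (h j) hj
  obtain ⟨R, h4, h5⟩ := W_split T j v
  refine ⟨j, v, legal_of_local T j v h1, ?_⟩
  rcases h2 with ⟨h2, h3, h6⟩ | ⟨h2, h3⟩
  · left
    have h3' : lw (st T j) ≤ lw (aft v (st T j)) + 1 := h3
    have h6' : 0 < lw (aft v (st T j)) := h6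
    refine ⟨?_, by omega, by omega⟩
    intro i
    by_cases hij : i = j
    · subst hij
      rw [st_same]
      exact h2
    · rw [st_other T i j v hij]
      exact h i
  · right
    have h3' : lw (st T j) ≤ lw (aft v (st T j)) := h3
    exact ⟨not_allClean_next T j v h2, by omega⟩

theorem ll_lower {t : ℕ} : ∀ (k : ℕ) (T : Set (Option (Fin t × Fin 9))),
    (AtMost (LLLegal (graph t)) (LLNext (graph t)) k false T → 2 * ((W T + 1) / 2) ≤ k) ∧
    (AtMost (LLLegal (graph t)) (LLNext (graph t)) k true T → ¬ AllClean T →
      2 * ((W T + 1) / 2) ≤ k + 1) ∧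
    (AtMost (LLLegal (graph t)) (LLNext (graph t)) k true T → AllClean T → 0 < W T →
      2 * (W T / 2) + 1 ≤ k) := by
  intro k
  induction k with
  | zero =>
    intro T
    refine ⟨fun h => ?_, fun h hc => ?_, fun h hc hW => ?_⟩
    · by_cases hc : AllClean T
      · by_cases hW : 0 < W T
        · obtain ⟨j, v, hl, _⟩ := exists_legal_of_clean T hc hW
          exact absurd hl (h _)
        · omega
      · obtain ⟨j, v, hl, _⟩ := exists_legal_of_unclean T hc
        exact absurd hl (h _)
    · obtain ⟨j, v, hl, _⟩ := exists_legal_of_unclean T hc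
      exact absurd hl (h _)
    · obtain ⟨j, v, hl, _⟩ := exists_legal_of_clean T hc hW
      exact absurd hl (h _)
  | succ k ih =>
    intro T
    refine ⟨fun h => ?_, fun h hc => ?_, fun h hc hW => ?_⟩
    · by_cases hc : AllClean T
      · by_cases hW : 0 < W T
        · obtain ⟨j, v, hl, h2⟩ := exists_legal_of_clean T hc hW
          have h3 := h _ hl
          rcases h2 with ⟨h4, h5, h6⟩ | ⟨h4, h5⟩
          · have := (ih _).2.2 h3 h4 h6
            omega
          · have := (ih _).2.1 h3 h4
            omega
        · omega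
      · obtain ⟨j, v, hl, h4, h5⟩ := exists_legal_of_unclean T hc
        have := (ih _).2.1 (h _ hl) h4
        omega
    · rcases h with h | ⟨v, hv, h⟩
      · obtain ⟨j, v, hl, _⟩ := exists_legal_of_unclean T hc
        exact absurd hl (h _)
      · have h1 := (ih _).1 h
        have h2 := (W_drop T v).1
        omega
    · rcases h with h | ⟨v, hv, h⟩
      · obtain ⟨j, v, hl, _⟩ := exists_legal_of_clean T hc hW
        exact absurd hl (h _)
      · have h1 := (ih _).1 h
        have h2 := (W_drop T v).2 hc
        omega

end Lower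

theorem W_empty (t : ℕ) : W (∅ : Set (Option (Fin t × Fin 9))) = 5 * t := by
  unfold W
  have : ∀ j : Fin t, lw (st (∅ : Set (Option (Fin t × Fin 9))) j) = 5 := by
    intro j
    have h : st (∅ : Set (Option (Fin t × Fin 9))) j = fun _ => true := by
      funext b
      rw [st_eq_true]
      simp
    rw [h]
    rfl
  simp [this, mul_comm]

theorem no_isolated (t : ℕ) (ht : 1 ≤ t) : ∀ u, ∃ v, (graph t).Adj v u := by
  rintro (_ | ⟨j, b⟩)
  · exact ⟨some (⟨0, ht⟩, 1), by show hub 1 = true; decide⟩
  · have hloc : ∀ b : Fin 9, ∃ a : Fin 9, e a b = true := by decide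
    obtain ⟨a, ha⟩ := hloc b
    exact ⟨some (j, a), ⟨rfl, ha⟩⟩

theorem main (t : ℕ) (ht : 1 ≤ t) : (graph t).Connected ∧
    ∃ z l : ℕ, IsZNumber (graph t) z ∧ IsLLNumber (graph t) l ∧ z ≤ 2 * t + 1 ∧ 5 * t ≤ l + 1 := by
  classical
  refine ⟨connected t, ?_⟩
  have hz : ∃ k, AtMost (ZLegal (graph t)) (ZNext (graph t)) k true ∅ := ⟨_, z_upper ht⟩
  have hl : ∃ k, AtMost (LLLegal (graph t)) (LLNext (graph t)) k true ∅ :=
    ⟨_, (ll_finite (graph t) (no_isolated t ht) _ ∅ le_rfl).1⟩
  refine ⟨Nat.find hz, Nat.find hl, ⟨Nat.find_spec hz, fun k hk => Nat.find_min' hz hk⟩,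
    ⟨Nat.find_spec hl, fun k hk => Nat.find_min' hl hk⟩, Nat.find_min' hz (z_upper ht), ?_⟩
  have hun : ¬ AllClean (∅ : Set (Option (Fin t × Fin 9))) := by
    intro hc
    have := hc ⟨0, ht⟩
    have h : st (∅ : Set (Option (Fin t × Fin 9))) ⟨0, ht⟩ = fun _ => true := by
      funext b
      rw [st_eq_true]
      simp
    rw [h] at this
    exact absurd this (by decide)
  have h1 := (ll_lower _ _).2.1 (Nat.find_spec hl) hun
  rw [W_empty] at h1
  omega

/-- For every `t ≥ 1` there is a connected graph on `9t+1` vertices with Z-domination game number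
at most `2t+1` and LL-domination game number at least `5t-1`.  In particular, for every constant
`C` there is a connected graph with at least two vertices whose LL-domination game number is at
least twice its Z-domination game number plus `C`. -/
theorem result :
    (∀ t : ℕ, 1 ≤ t → ∃ (V : Type) (_ : Fintype V) (G : SimpleGraph V),
      Fintype.card V = 9 * t + 1 ∧ G.Connected ∧
      ∃ z l : ℕ, IsZNumber G z ∧ IsLLNumber G l ∧ z ≤ 2 * t + 1 ∧ 5 * t ≤ l + 1) ∧
    (∀ C : ℕ, ∃ (V : Type) (_ : Fintype V) (G : SimpleGraph V),
      2 ≤ Fintype.card V ∧ G.Connected ∧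
      ∃ z l : ℕ, IsZNumber G z ∧ IsLLNumber G l ∧ 2 * z + C ≤ l) := by
  have hcard : ∀ t : ℕ, Fintype.card (Option (Fin t × Fin 9)) = 9 * t + 1 := by
    intro t
    simp [mul_comm]
  constructor
  · intro t ht
    exact ⟨Option (Fin t × Fin 9), inferInstance, graph t, hcard t, (main t ht).1, (main t ht).2⟩
  · intro C
    have ht : 1 ≤ C + 3 := by omega
    obtain ⟨hc, z, l, hz, hl, h1, h2⟩ := main (C + 3) ht
    refine ⟨Option (Fin (C + 3) × Fin 9), inferInstance, graph (C + 3), ?_, hc, z, l, hz, hl, ?_⟩
    · rw [hcard]
      omega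
    · omega

end Pool.Agent.Results.MP_4d264a_co.UnboundedGap
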